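import Mathlib

namespace Pool.Agent.Results.MP_68af1b_co.Counter

open Polynomial Finset

/-- The restricted Bell polynomials, by the recurrence of the problem file. -/
noncomputable def B (m : ℕ) : ℕ → ℝ[X]
  | 0 => 1
  | n + 1 => X * B m n + X * derivative (B m n) - (n.choose m : ℝ[X]) * X * B m (n - m)
decreasing_by all_goals omega

theorem rec1 (m n : ℕ)
    (h : derivative (B m n) = ∑ j ∈ range m, (n.choose (j + 1) : ℝ[X]) * B m (n - (j + 1))) :
    B m (n + 1) = X * ∑ j ∈ range m, (n.choose j : ℝ[X]) * B m (n - j) := by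
  have a := sum_range_succ (fun j => (n.choose j : ℝ[X]) * B m (n - j)) m
  rw [sum_range_succ', ← h] at a
  rw [B]
  simp only [Nat.choose_zero_right, Nat.cast_one, one_mul, Nat.sub_zero] at a
  linear_combination X * a

theorem der (m n : ℕ) :
    derivative (B m n) = ∑ j ∈ range m, (n.choose (j + 1) : ℝ[X]) * B m (n - (j + 1)) := by
  induction n using Nat.strong_induction_on with
  | _ n ih =>
  rcases n with _ | n
  · simp [B]
  have e : ∀ l ∈ range m, (n.choose (l + 1) : ℝ[X]) * B m (n - l) = ∑ j ∈ range m,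
      X * ((n.choose j : ℝ[X]) * (((n - j).choose (l + 1) : ℝ[X]) * B m (n - j - (l + 1)))) := by
    intro l _
    have t : ∀ j, (n.choose j : ℝ[X]) * (((n - j).choose (l + 1) : ℝ[X]) * B m (n - j - (l + 1))) =
        (n.choose (l + 1) : ℝ[X]) * (((n - (l + 1)).choose j : ℝ[X]) * B m (n - (l + 1) - j)) := by
      intro j
      have a := Nat.choose_mul (n := n) (k := j + (l + 1)) (s := j) (by omega)
      have b := Nat.choose_mul (n := n) (k := j + (l + 1)) (s := l + 1) (by omega)
      rw [Nat.add_sub_cancel_left, Nat.choose_symm_add, b, Nat.add_sub_cancel] at a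
      rw [← mul_assoc, ← mul_assoc, ← Nat.cast_mul, ← a, Nat.cast_mul, Nat.sub_right_comm]
    simp only [t, ← mul_sum]
    by_cases h : l < n
    · rw [show n - l = n - (l + 1) + 1 by omega, rec1 _ _ (ih _ (by omega))]
      ring
    · simp [Nat.choose_eq_zero_of_lt (show n < l + 1 by omega)]
  rw [rec1 m n (ih n (by omega))]
  simp only [Nat.choose_succ_succ', Nat.cast_add, add_mul, Nat.add_sub_add_right, sum_add_distrib,
    sum_congr rfl e, derivative_mul, derivative_X, one_mul, derivative_sum, derivative_natCast,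
    zero_mul, zero_add]
  rw [sum_comm, mul_sum]
  congr 1
  refine sum_congr rfl fun j _ => ?_
  rw [ih _ (by omega), mul_sum, mul_sum]

abbrev T := ℤ × ℤ × ℤ

def c (n k : ℕ) : ℤ := (n.descFactorial k / k.factorial : ℕ)

def nx (s : T) : T := (-1855 * s.1, s.1 - 1855 * s.2.1, 2 * s.2.1 - 1855 * s.2.2)

def st : ℕ → T × T × T × T × T
  | 0 => ((1, 0, 0), (1, 0, 0), (1, 0, 0), (1, 0, 0), (1, 0, 0))
  | n + 1 => match st n with
    | (a, b, d, e, f) => (nx (a + c n 1 • b + c n 2 • d + c n 3 • e + c n 4 • f), a, b, d, e)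

def R (p : ℝ[X]) (t : T) : Prop := p.eval (-1855) = t.1 ∧ p.derivative.eval (-1855) = t.2.1 ∧
  p.derivative.derivative.eval (-1855) = t.2.2

theorem ok (n : ℕ) : R (B 5 n) (st n).1 ∧ R (B 5 (n - 1)) (st n).2.1 ∧ R (B 5 (n - 2)) (st n).2.2.1 ∧
    R (B 5 (n - 3)) (st n).2.2.2.1 ∧ R (B 5 (n - 4)) (st n).2.2.2.2 := by
  induction n with
  | zero => simp [R, B, st]
  | succ n ih =>
    obtain ⟨a, b, d, e, f⟩ := ih
    refine ⟨?_, a, b, d, e⟩
    have hc : ∀ k, ((c n k : ℤ) : ℝ) = n.choose k := fun k => by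
      rw [c, ← Nat.choose_eq_descFactorial_div_factorial, Int.cast_natCast]
    rw [rec1 5 n (der 5 n)]
    simp only [R] at *
    simp only [st, nx, sum_range_succ, sum_range_zero, derivative_mul, derivative_add, derivative_X,
      derivative_natCast, derivative_one, eval_add, eval_mul, eval_X, eval_natCast, eval_one,
      Nat.sub_zero, zero_mul, zero_add, a, b, d, e, f, Prod.fst_add, Prod.snd_add, Prod.smul_fst,
      Prod.smul_snd, smul_eq_mul, Nat.choose_zero_right]
    push_cast
    simp only [hc]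
    refine ⟨?_, ?_, ?_⟩ <;> ring

abbrev S := T × T × T × T × T

def fN (n : ℕ) (k : ℕ → S) : S := Nat.casesOn n (k 0) fun n => k (n + 1)

def fI (a : ℤ) (k : ℤ → S) : S :=
  Int.casesOn a (fun n => fN n fun n => k (.ofNat n)) fun n => fN n fun n => k (.negSucc n)

theorem fN_eq (n : ℕ) (k : ℕ → S) : fN n k = k n := by cases n <;> rfl

theorem fI_eq (a : ℤ) (k : ℤ → S) : fI a k = k a := by
  cases a <;> simp only [fI, fN_eq]

def go : ℕ → ℕ → S → S
  | 0, _, s => s
  | g + 1, n, (a, b, d, e, f) =>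
    fI (nx (a + c n 1 • b + c n 2 • d + c n 3 • e + c n 4 • f)).1 fun u =>
    fI (nx (a + c n 1 • b + c n 2 • d + c n 3 • e + c n 4 • f)).2.1 fun v =>
    fI (nx (a + c n 1 • b + c n 2 • d + c n 3 • e + c n 4 • f)).2.2 fun w =>
    fN (n + 1) fun k => go g k ((u, v, w), a, b, d, e)

theorem go_eq (g n : ℕ) : go g n (st n) = st (n + g) := by
  induction g generalizing n with
  | zero => rfl
  | succ g ih =>
    rw [show n + (g + 1) = n + 1 + g by omega, ← ih, st]
    generalize st n = s
    obtain ⟨a, b, d, e, f⟩ := s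
    simp only [go, fI_eq, fN_eq]

theorem num0 : (go 718 0 (st 0)).1.2.1 ^ 2 < (go 718 0 (st 0)).1.1 * (go 718 0 (st 0)).1.2.2 := by
  decide +kernel

theorem num : (st 718).1.2.1 ^ 2 < (st 718).1.1 * (st 718).1.2.2 := by
  have := num0
  rwa [go_eq, Nat.zero_add] at this

theorem lag (s : Multiset ℝ) (x : ℝ) : ((s.map fun r => X - C r).prod).eval x *
    ((s.map fun r => X - C r).prod).derivative.derivative.eval x ≤
    ((s.map fun r => X - C r).prod).derivative.eval x ^ 2 := by
  induction s using Multiset.induction_on with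
  | empty => simp
  | cons r s ih =>
    rw [Multiset.map_cons, Multiset.prod_cons]
    generalize (s.map fun r => X - C r).prod = q at *
    simp only [derivative_mul, derivative_add, derivative_X_sub_C, one_mul, eval_add, eval_mul,
      eval_sub, eval_X, eval_C]
    nlinarith [mul_le_mul_of_nonneg_left ih (sq_nonneg (x - r)), sq_nonneg (q.eval x)]

theorem result : (∃ z : ℂ, aeval z (B 5 718) = 0 ∧ z.im ≠ 0) ∧
    ¬ ∀ m ≥ 1, m ≠ 3 → m ≠ 4 → ∀ n ≥ 1, ∀ z : ℂ, aeval z (B m n) = 0 → z.im = 0 ∧ z.re ≤ 0 := by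
  have k : ∃ z : ℂ, aeval z (B 5 718) = 0 ∧ z.im ≠ 0 := by
    by_contra! H
    obtain ⟨⟨a, b, d⟩, -⟩ := ok 718
    have n : (((st 718).1.2.1 : ℤ) : ℝ) ^ 2 < ((st 718).1.1 : ℤ) * ((st 718).1.2.2 : ℤ) := by
      exact_mod_cast num
    rw [← a, ← b, ← d] at n
    generalize B 5 718 = p at *
    have s : p.Splits := (IsAlgClosed.splits (p.map (algebraMap ℝ ℂ))).of_splits_map _ fun z hz =>
      ⟨z.re, Complex.ext rfl (H z (by simpa [eval_map_algebraMap] using isRoot_of_mem_roots hz)).symm⟩
    have l := lag p.roots (-1855)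
    rw [s.eq_prod_roots] at n
    generalize (p.roots.map fun r => X - C r).prod = q at *
    simp only [derivative_C_mul, eval_mul, eval_C] at n
    nlinarith [mul_le_mul_of_nonneg_left l (sq_nonneg p.leadingCoeff)]
  refine ⟨k, fun H => ?_⟩
  obtain ⟨z, a, b⟩ := k
  exact b (H 5 (by decide) (by decide) (by decide) 718 (by decide) z a).1

end Pool.Agent.Results.MP_68af1b_co.Counter
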